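import Mathlib
import Pool.Agent.TH854.GC.B2

namespace Pool.Agent.Results.MP_fb29e9_nt.ExplicitDiscs

/-- An explicit bound with a small constant, uniform in the centre: every closed disc of radius
`R ≥ 1` in the plane, whatever its centre `(a, b)`, contains `π R²` integer points up to an error of
at most `8 R^{2/3}`.  For `a = b = 0` this is `|F(R) - π R²| ≤ 8 R^{2/3}` for all `R ≥ 1`. -/
theorem result (a b R : ℝ) (hR : 1 ≤ R) :
    |(Nat.card {p : ℤ × ℤ // ((p.1 : ℝ) - a) ^ 2 + ((p.2 : ℝ) - b) ^ 2 ≤ R ^ 2} : ℝ)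
      - Real.pi * R ^ 2| ≤ 8 * R ^ (2 / 3 : ℝ) := by
  have hR0 : 0 ≤ R := by linarith
  have hy : 1 ≤ R ^ (1 / 6 : ℝ) := Real.one_le_rpow hR (by norm_num)
  have h := Pool.Agent.TH854.GC.disc_bound a b hy
  have e6 : (R ^ (1 / 6 : ℝ)) ^ 6 = R := by
    rw [← Real.rpow_natCast, ← Real.rpow_mul hR0]; norm_num
  have e4 : (R ^ (1 / 6 : ℝ)) ^ 4 = R ^ (2 / 3 : ℝ) := by
    rw [← Real.rpow_natCast, ← Real.rpow_mul hR0]; norm_num
  rw [e6, e4] at h
  exact h

end Pool.Agent.Results.MP_fb29e9_nt.ExplicitDiscs
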