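import Mathlib
import Pool.Agent.H383.FullC
import Pool.Agent.H425R3.JL.F3

open Filter Topology MeasureTheory

namespace Pool.Agent.Results.MP_fb29e9_nt.IntegerRadiiBias

lemma card_eq (n : ℕ) :
    (Nat.card {p : ℤ × ℤ // p.1 ^ 2 + p.2 ^ 2 ≤ (n : ℤ) ^ 2} : ℝ) =
      (Nat.card {p : ℤ × ℤ // (p.1 : ℝ) ^ 2 + (p.2 : ℝ) ^ 2 ≤ ((n : ℝ) ^ 2)} : ℝ) := by
  congr 2
  refine congrArg (fun P : ℤ × ℤ → Prop => {p : ℤ × ℤ // P p}) ?_
  funext p
  apply propext
  constructor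
  · intro h; exact_mod_cast h
  · intro h; exact_mod_cast h

lemma sign_iff (n : ℕ) :
    (Nat.card {p : ℤ × ℤ // p.1 ^ 2 + p.2 ^ 2 ≤ (n : ℤ) ^ 2} : ℝ) < Real.pi * (n : ℝ) ^ 2 ↔
      Pool.Agent.H383.Circ.Cx ((n : ℝ) ^ 2) < 0 := by
  unfold Pool.Agent.H383.Circ.Cx
  rw [card_eq, sub_neg]

lemma card_primes_pos_ev : ∀ᶠ N : ℕ in atTop, 0 < (((Finset.Icc 1 N).filter Nat.Prime).card : ℝ) := by
  filter_upwards [eventually_ge_atTop 2] with N hN
  have : 0 < ((Finset.Icc 1 N).filter Nat.Prime).card := by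
    apply Finset.card_pos.mpr
    exact ⟨2, by simp [Nat.prime_two]; omega⟩
  exact_mod_cast this

open Classical in
/-- The sign of the error term of the Gauss circle problem at integer radii. There is a constant
`5/6 ≤ d < 1` such that the disc of integer radius `n` about the origin has fewer than `π n²` integer
points for a proportion `d` of all `n`, for a proportion `d` of the `n` of every short interval
`k < n ≤ k + N`, `N ≥ k^{1/2+ε}`, and for a proportion `d` of the primes `n`. -/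
theorem result :
    ∃ d : ℝ, 5 / 6 ≤ d ∧ d < 1 ∧
      (∀ ε : ℝ, 0 < ε → ∀ η : ℝ, 0 < η → ∃ N₀ : ℕ, ∀ N : ℕ, N₀ ≤ N → ∀ k : ℕ,
        (k : ℝ) ^ (1 / 2 + ε) ≤ N →
        |(((Finset.Ioc k (k + N)).filter (fun n : ℕ =>
            (Nat.card {p : ℤ × ℤ // p.1 ^ 2 + p.2 ^ 2 ≤ (n : ℤ) ^ 2} : ℝ) < Real.pi * (n : ℝ) ^ 2)).card : ℝ)
              / N - d| ≤ η) ∧
      Tendsto (fun N : ℕ => (((Finset.Icc 1 N).filter (fun n : ℕ => n.Prime ∧
            (Nat.card {p : ℤ × ℤ // p.1 ^ 2 + p.2 ^ 2 ≤ (n : ℤ) ^ 2} : ℝ) < Real.pi * (n : ℝ) ^ 2)).card : ℝ)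
              / ((Finset.Icc 1 N).filter Nat.Prime).card) atTop (𝓝 d) := by
  obtain ⟨d, hd1, hd2, hd3⟩ := Pool.Agent.H383.Circ.radii2
  refine ⟨d, hd1, hd2, ?_, ?_⟩
  · intro ε hε η hη
    obtain ⟨N₀, hN⟩ := hd3 ε hε η hη
    refine ⟨N₀, fun N hN' k hk => ?_⟩
    have h := hN N hN' k hk
    simp only [sign_iff]
    exact h
  · obtain ⟨μ, -, hm, -, hA⟩ := Pool.Agent.H425R3.JL.final_gen Pool.Agent.H425R3.JL.circ_data
      (fun _ : Fin 1 => 1) (fun _ => 0) (fun _ => 0) (fun _ => one_pos)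
      (fun _ n hn => by positivity)
    set A : Set (Fin 1 → ℝ) := {x | x 0 < 0} with hAdef
    have hfr : (μ : Measure (Fin 1 → ℝ)) (frontier A) = 0 := by
      have hsub : frontier A ⊆ (fun x : Fin 1 → ℝ => x 0) ⁻¹' {0} := by
        have := frontier_lt_subset_eq (continuous_apply (0 : Fin 1) : Continuous fun x : Fin 1 → ℝ => x 0)
          (continuous_const : Continuous fun _ : Fin 1 → ℝ => (0:ℝ))
        intro x hx
        exact this hx
      refine measure_mono_null hsub ?_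
      obtain ⟨g, -, -, hg3, -⟩ := hm 0
      rw [← Measure.map_apply (measurable_pi_apply 0) (measurableSet_singleton 0), hg3]
      rw [withDensity_apply _ (measurableSet_singleton 0)]
      simp
    obtain ⟨h1, h2⟩ := hA A hfr
    have hiff : ∀ n : ℕ, 1 ≤ n → ((fun i : Fin 1 => Pool.Agent.H425R3.JL.Ec ((((fun _ : Fin 1 => 1) i : ℕ) : ℝ) * (n : ℝ) ^ 2 +
        (fun _ : Fin 1 => (0:ℝ)) i * n + (fun _ : Fin 1 => (0:ℝ)) i)) ∈ A ↔
        (Nat.card {p : ℤ × ℤ // p.1 ^ 2 + p.2 ^ 2 ≤ (n : ℤ) ^ 2} : ℝ) < Real.pi * (n : ℝ) ^ 2) := by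
      intro n hn
      have hn0 : (0:ℝ) < (n:ℝ) ^ 2 := by positivity
      have hs : 0 < ((n:ℝ) ^ 2) ^ (1 / 4 : ℝ) := by positivity
      simp only [hAdef, Set.mem_ofPred_eq, Nat.cast_one, one_mul, zero_mul, add_zero]
      unfold Pool.Agent.H425R3.JL.Ec
      rw [div_lt_iff₀ hs, zero_mul, card_eq, sub_neg]
    have hd : (μ : Measure (Fin 1 → ℝ)).real A = d := by
      refine tendsto_nhds_unique h1 ?_
      rw [Metric.tendsto_atTop]
      intro η hη
      obtain ⟨N₀, hN⟩ := hd3 1 one_pos (η / 2) (half_pos hη)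
      refine ⟨max N₀ 1, fun N hN' => ?_⟩
      have h := hN N (le_trans (le_max_left _ _) hN') 0 (by
        rw [Nat.cast_zero, Real.zero_rpow (by norm_num)]; positivity)
      rw [Real.dist_eq]
      refine lt_of_le_of_lt ?_ (half_lt_self hη)
      have e : ((Finset.Icc 1 N).filter (fun n : ℕ => (fun i : Fin 1 => Pool.Agent.H425R3.JL.Ec ((((fun _ : Fin 1 => 1) i : ℕ) : ℝ) * (n : ℝ) ^ 2 +
        (fun _ : Fin 1 => (0:ℝ)) i * n + (fun _ : Fin 1 => (0:ℝ)) i)) ∈ A)) =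
          ((Finset.Ioc 0 (0 + N)).filter (fun n : ℕ => Pool.Agent.H383.Circ.Cx ((n:ℝ)^2) < 0)) := by
        ext n
        simp only [Finset.mem_filter, Finset.mem_Icc, Finset.mem_Ioc, zero_add]
        constructor
        · rintro ⟨⟨h1, h2⟩, h3⟩
          exact ⟨⟨by omega, h2⟩, (sign_iff n).mp ((hiff n h1).mp h3)⟩
        · rintro ⟨⟨h1, h2⟩, h3⟩
          exact ⟨⟨by omega, h2⟩, (hiff n (by omega)).mpr ((sign_iff n).mpr h3)⟩
      rw [e]
      exact h
    rw [hd] at h2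
    refine h2.congr' ?_
    filter_upwards with N
    congr 3
    apply Finset.filter_congr
    intro n hn
    constructor
    · rintro ⟨h3, h4⟩
      exact ⟨h3, (hiff n h3.one_lt.le).mp h4⟩
    · rintro ⟨h3, h4⟩
      exact ⟨h3, (hiff n h3.one_lt.le).mpr h4⟩

end Pool.Agent.Results.MP_fb29e9_nt.IntegerRadiiBias
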