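import Mathlib
import Pool.Agent.W24.CP.SR

/-!
# The circle problem and the divisor problem together

The joint law of the error terms of the Gauss circle problem and of the Dirichlet divisor problem at linear
arguments, at integers and at primes: it exists, the two error terms are uncorrelated, and their values are
orthogonal to all multiplicative functions and additive characters.  The modules `Pool.Agent.W24.CP.*` of the
starting files are used for both error terms.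
-/

set_option autoImplicit false

open Filter Topology MeasureTheory Finset
open Pool.Agent.H383
open Pool.Agent.H383.Gen (Bd U Ap)
open Pool.Agent.H383.AP (rm)
open Pool.Agent.H452R2.Win Pool.Agent.H452R2.Om
open Pool.Agent.H469R2.NK
open Pool.Agent.H425R3.JL
open Pool.Agent.W24.CP.SL (chS chS_zero norm_chS mcS TS TS_chr TS_one TS_lim AvS)
open Pool.Agent.W24.Katai (Mul1)
open Pool.Agent.W24.CP Pool.Agent.W24.CP.SU Pool.Agent.W24.CP.SX Pool.Agent.W24.CP.SF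

namespace Pool.Agent.Results.MP_fb29e9_nt.JointWithDivisor

section gen

variable {ι κ : Type*} [Fintype ι] [Fintype κ]

lemma q_elim (x : ι → ℝ) (y : κ → ℝ) : q (Sum.elim x y) = q x + q y := by
  unfold q
  rw [Fintype.sum_sum_type]
  rfl

lemma ApU_elim {U1 : ℕ → ℕ → ι → ℝ} {U2 : ℕ → ℕ → κ → ℝ} {e1 : ℕ → ι → ℝ} {e2 : ℕ → κ → ℝ}
    {S : ℕ → Finset ℕ} (h1 : ApU U1 e1 S) (h2 : ApU U2 e2 S) :
    ApU (fun M n => Sum.elim (U1 M n) (U2 M n)) (fun n => Sum.elim (e1 n) (e2 n)) S := by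
  intro η hη
  obtain ⟨M1, k1⟩ := h1 (η / 2) (by positivity)
  obtain ⟨M2, k2⟩ := h2 (η / 2) (by positivity)
  refine ⟨max M1 M2, fun M hM => ?_⟩
  obtain ⟨j1, l1⟩ := k1 M (by omega)
  obtain ⟨j2, l2⟩ := k2 M (by omega)
  refine ⟨max j1 j2, fun j hj => ?_⟩
  have a1 := l1 j (by omega)
  have a2 := l2 j (by omega)
  have e : (fun n => q (Sum.elim (e1 n) (e2 n) - Sum.elim (U1 M n) (U2 M n))) =
      fun n => q (e1 n - U1 M n) + q (e2 n - U2 M n) := by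
    funext n
    rw [← q_elim]
    congr 1
    funext z
    cases z <;> rfl
  rw [e, fav_add]
  linarith

/-- the mean of the product of two model polynomials whose phases differ by a right angle is zero -/
lemma U_cross (af ag' : ℕ → ℝ) (φ ψ : ℝ) (hφ : Real.cos (φ - ψ) = 0) {c d : ℝ} (hc : 0 < c) (hd : 0 < d)
    {a b : ℕ} (ha : 1 ≤ a) (hb : 1 ≤ b) (M : ℕ) :
    Tendsto (fun j => fav (SI j) (fun n => U af φ ((c * √(a:ℝ)) * √(n:ℝ)) M *
      U ag' ψ ((d * √(b:ℝ)) * √(n:ℝ)) M)) atTop (𝓝 0) := by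
  have ha0 : (0:ℝ) < a := by exact_mod_cast ha
  have hb0 : (0:ℝ) < b := by exact_mod_cast hb
  unfold U
  have h1 : ∀ j, fav (SI j) (fun n : ℕ => (∑ m ∈ Icc 1 (M^2), af m *
        Real.cos (2 * Real.pi * ((c * √(a:ℝ)) * √(n:ℝ) * √(m:ℝ)) - φ)) *
        (∑ m' ∈ Icc 1 (M^2), ag' m' * Real.cos (2 * Real.pi * ((d * √(b:ℝ)) * √(n:ℝ) * √(m':ℝ)) - ψ))) =
      ∑ m ∈ Icc 1 (M^2), ∑ m' ∈ Icc 1 (M^2), (af m * ag' m' / 2) *
        (fav (SI j) (fun n : ℕ => Real.cos (2 * Real.pi * ((c * √(a:ℝ) * √(m:ℝ) - d * √(b:ℝ) * √(m':ℝ))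
            * √(n:ℝ)) - (φ - ψ))) +
         fav (SI j) (fun n : ℕ => Real.cos (2 * Real.pi * ((c * √(a:ℝ) * √(m:ℝ) + d * √(b:ℝ) * √(m':ℝ))
            * √(n:ℝ)) - (φ + ψ)))) := by
    intro j
    have e1 : (fun n : ℕ => (∑ m ∈ Icc 1 (M^2), af m *
          Real.cos (2 * Real.pi * ((c * √(a:ℝ)) * √(n:ℝ) * √(m:ℝ)) - φ)) *
        (∑ m' ∈ Icc 1 (M^2), ag' m' * Real.cos (2 * Real.pi * ((d * √(b:ℝ)) * √(n:ℝ) * √(m':ℝ)) - ψ))) =
        fun n : ℕ => ∑ m ∈ Icc 1 (M^2), ∑ m' ∈ Icc 1 (M^2),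
          (af m * Real.cos (2 * Real.pi * ((c * √(a:ℝ)) * √(n:ℝ) * √(m:ℝ)) - φ)) *
            (ag' m' * Real.cos (2 * Real.pi * ((d * √(b:ℝ)) * √(n:ℝ) * √(m':ℝ)) - ψ)) := by
      funext n; rw [Finset.sum_mul_sum]
    rw [e1, fav_sum]
    apply sum_congr rfl; intro m _
    rw [fav_sum]
    apply sum_congr rfl; intro m' _
    rw [← fav_add, ← fav_mul]
    congr 1; funext n
    have e2 : 2 * Real.pi * ((c * √(a:ℝ) * √(m:ℝ) - d * √(b:ℝ) * √(m':ℝ)) * √(n:ℝ)) - (φ - ψ) =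
        (2 * Real.pi * ((c * √(a:ℝ)) * √(n:ℝ) * √(m:ℝ)) - φ) -
          (2 * Real.pi * ((d * √(b:ℝ)) * √(n:ℝ) * √(m':ℝ)) - ψ) := by ring
    have e3 : 2 * Real.pi * ((c * √(a:ℝ) * √(m:ℝ) + d * √(b:ℝ) * √(m':ℝ)) * √(n:ℝ)) - (φ + ψ) =
        (2 * Real.pi * ((c * √(a:ℝ)) * √(n:ℝ) * √(m:ℝ)) - φ) +
          (2 * Real.pi * ((d * √(b:ℝ)) * √(n:ℝ) * √(m':ℝ)) - ψ) := by ring
    have e6 : ∀ p r : ℝ, (af m * Real.cos p) * (ag' m' * Real.cos r) =
        (af m * ag' m'/2) * (Real.cos (p - r) + Real.cos (p + r)) := by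
      intro p r; rw [Real.cos_sub, Real.cos_add]; ring
    rw [e2, e3]; exact e6 _ _
  simp only [h1]
  have h0 : (0:ℝ) = ∑ m ∈ Icc 1 (M^2), ∑ m' ∈ Icc 1 (M^2), (0:ℝ) := by simp
  rw [h0]
  apply tendsto_finsetSum
  intro m hm
  apply tendsto_finsetSum
  intro m' hm'
  rw [mem_Icc] at hm hm'
  have hm0 : (0:ℝ) < m := by exact_mod_cast hm.1
  have hm0' : (0:ℝ) < m' := by exact_mod_cast hm'.1
  have h2 := cosmean (c * √(a:ℝ) * √(m:ℝ) - d * √(b:ℝ) * √(m':ℝ)) (φ - ψ)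
  have h3 := cosmean (c * √(a:ℝ) * √(m:ℝ) + d * √(b:ℝ) * √(m':ℝ)) (φ + ψ)
  rw [if_neg (by positivity)] at h3
  rw [hφ, ite_self] at h2
  have h4 := (h2.add h3).const_mul (af m * ag' m' / 2)
  rw [add_zero, mul_zero] at h4
  exact h4

end gen

open Pool.Agent.H383.Circ in
/-- bounded test functions along the squares of a transcendental progression, for the circle -/
lemma base_circ : ∃ (t : ℝ) (ν : ProbabilityMeasure ℝ) (G : ℂ → ℂ) (eb : ℕ → ℝ), Transcendental ℤ t ∧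
    Differentiable ℂ G ∧ (∀ x : ℝ, 0 ≤ (G x).re ∧ (G x).im = 0) ∧
    (ν : Measure ℝ) = volume.withDensity (fun x : ℝ => ENNReal.ofReal (G x).re) ∧
    (∀ u v : ℝ, u < v → 0 < (ν : Measure ℝ) (Set.Ioo u v)) ∧
    Ap ag (3 * Real.pi / 4) eb t t ∧
    ∀ f : ℝ → ℝ, Continuous f → (∃ C, ∀ x, |f x| ≤ C) →
      Tendsto (fun j => fav (RS j) (fun n => f (eb n))) atTop (𝓝 (∫ x, f x ∂(ν : Measure ℝ))) := by
  obtain ⟨t, ht0, ht⟩ := SR.exists_tr
  have ht2 : 0 < t^2 := by positivity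
  have hP : ∀ n : ℕ, 0 < t^2 * (n:ℝ)^2 + (2 * t^2) * n + t^2 := fun n => by positivity
  have hsq : √(t^2) = t := Real.sqrt_sq ht0.le
  have hAp := Pool.Agent.H383.Circ.quad_Ap (a := t^2) (b := 2 * t^2) (c := t^2) ht2 (fun n => (hP n).le)
  have e0 : 2 * t^2 / (2 * √(t^2)) = t := by rw [hsq]; field_simp
  rw [hsq] at e0
  rw [hsq, e0] at hAp
  obtain ⟨ν, G, g1, g2, g3, g4, g5, g6, -⟩ :=
    Pool.Agent.H383.Circ.distr3 (a := t^2) (b := 2 * t^2) (c := t^2) ht2 hP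
  refine ⟨t, ν, G, _, ht, g1, g2, g3, g4, hAp, ?_⟩
  intro f hf hC
  obtain ⟨C, hC⟩ := hC
  have h7 := g6 f hf ⟨C, fun x => by
    have := hC x
    have h8 : 0 ≤ C := (abs_nonneg _).trans this
    nlinarith [sq_nonneg x]⟩ 1 one_pos
  rw [Metric.tendsto_atTop]
  intro η hη
  obtain ⟨N0, h8⟩ := h7 (η/2) (by positivity)
  refine ⟨N0, fun j hj => ?_⟩
  have h9 := h8 (j+1) (by omega) 0 (by
    rw [Nat.cast_zero, Real.zero_rpow (by norm_num)]; exact Nat.cast_nonneg _)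
  rw [Real.dist_eq]
  refine lt_of_le_of_lt (le_of_eq ?_) (lt_of_le_of_lt h9 (by linarith))
  congr 2
  unfold fav RS
  rw [Finset.card_range, Nat.zero_add, ← Finset.range_eq_Ico]
  congr 1
  apply Finset.sum_congr rfl
  intro n _
  beta_reduce
  rw [Pool.Agent.H383.Circ.En_quad (hP n).le]

/-- bounded test functions along the squares of a transcendental progression, for the divisor problem -/
lemma base_div : ∃ (t : ℝ) (ν : ProbabilityMeasure ℝ) (G : ℂ → ℂ) (eb : ℕ → ℝ), Transcendental ℤ t ∧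
    Differentiable ℂ G ∧ (∀ x : ℝ, 0 ≤ (G x).re ∧ (G x).im = 0) ∧
    (ν : Measure ℝ) = volume.withDensity (fun x : ℝ => ENNReal.ofReal (G x).re) ∧
    (∀ u v : ℝ, u < v → 0 < (ν : Measure ℝ) (Set.Ioo u v)) ∧
    Ap Pool.Agent.H383.Div.ad (Real.pi / 4) eb t t ∧
    ∀ f : ℝ → ℝ, Continuous f → (∃ C, ∀ x, |f x| ≤ C) →
      Tendsto (fun j => fav (RS j) (fun n => f (eb n))) atTop (𝓝 (∫ x, f x ∂(ν : Measure ℝ))) := by
  obtain ⟨t, ht0, ht⟩ := SR.exists_tr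
  have ht2 : 0 < t^2 / 4 := by positivity
  have hP : ∀ n : ℕ, 0 < t^2/4 * (n:ℝ)^2 + (t^2/2) * n + t^2/4 := fun n => by positivity
  have hsq : √(t^2/4) = t/2 := by
    rw [show t^2/4 = (t/2)^2 by ring]; exact Real.sqrt_sq (by positivity)
  have hAp := Pool.Agent.H383.Div.quad_Ap Pool.Agent.H383.Div.vor (a := t^2/4) (b := t^2/2) (c := t^2/4)
    ht2 (fun n => (hP n).le)
  have e0 : t^2/2 / √(t^2/4) = t := by rw [hsq]; field_simp
  have e1 : 2 * √(t^2/4) = t := by rw [hsq]; ring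
  rw [e0, e1] at hAp
  obtain ⟨ν, G, g1, g2, g3, g4, g5, g6, -⟩ := Pool.Agent.H383.Div.distr3 Pool.Agent.H383.Div.vor
    (a := t^2/4) (b := t^2/2) (c := t^2/4) ht2 hP
  refine ⟨t, ν, G, _, ht, g1, g2, g3, g4, hAp, ?_⟩
  intro f hf hC
  obtain ⟨C, hC⟩ := hC
  have h7 := g6 f hf ⟨C, fun x => by
    have := hC x
    have h8 : 0 ≤ C := (abs_nonneg _).trans this
    nlinarith [sq_nonneg x]⟩ 1 one_pos
  rw [Metric.tendsto_atTop]
  intro η hη
  obtain ⟨N0, h8⟩ := h7 (η/2) (by positivity)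
  refine ⟨N0, fun j hj => ?_⟩
  have h9 := h8 (j+1) (by omega) 0 (by
    rw [Nat.cast_zero, Real.zero_rpow (by norm_num)]; exact Nat.cast_nonneg _)
  rw [Real.dist_eq]
  refine lt_of_le_of_lt (le_of_eq ?_) (lt_of_le_of_lt h9 (by linarith))
  congr 2
  unfold fav RS
  rw [Finset.card_range, Nat.zero_add, ← Finset.range_eq_Ico]
  congr 1
  apply Finset.sum_congr rfl
  intro n _
  beta_reduce
  rw [Pool.Agent.H383.Div.Ed_quad (hP n).le]

open Pool.Agent.H383.Circ Pool.Agent.H383.Div in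
open Classical in
/-- **The error terms of the circle problem and of the divisor problem together, at integers and primes.** Let
`P(x) = (#{p ∈ ℤ² : |p|² ≤ x} - πx) / x^{1/4}` and
`D(x) = (∑_{j ≤ x} d(j) - x log x - (2γ-1)x) / x^{1/4}`. There are laws `νP`, `νD` on `ℝ`, with densities that
extend to entire functions and with full support, such that for all positive integers
`a_1, …, a_k, c_1, …, c_l` and all integers `b_i, d_j ≥ 0` the vectors
`v_n = (P(a_1 n + b_1), …, P(a_k n + b_k), D(c_1 n + d_1), …, D(c_l n + d_l))` have a joint limit law `μ`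
on `ℝ^{k+l}`, both for `n` running through the integers and for `n = p` running through the primes; the first
`k` one-dimensional marginals of `μ` are `νP`, the other `l` ones are `νD`, and every one of the first `k`
coordinates is uncorrelated with every one of the other `l`: `∫ x_i y_j dμ = 0 = ∫ x_i dμ = ∫ y_j dμ`. So
`∑_{n ≤ N} P(a n + b) D(c n + d) = o(N)` and `∑_{p ≤ N} P(a p + b) D(c p + d) = o(π(N))`. The values are
orthogonal to everything multiplicative and additive: for every continuous `f` of at most quadratic growth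
`∑_{n ≤ N} g(n) e^{2πiαn} (f(v_n) - ∫ f dμ) = o(N)` uniformly over all real `α` and all multiplicative `g` with
`|g| ≤ 1`, and `∑_{p ≤ N} e^{2πiαp} (f(v_p) - ∫ f dμ) = o(π(N))` uniformly over all real `α`; the same holds
with the indicator function of any set `A` with `μ(∂A) = 0` in place of `f`. -/
theorem result (P D : ℝ → ℝ)
    (hPdef : ∀ x : ℝ, P x =
      ((Nat.card {p : ℤ × ℤ // (p.1 : ℝ) ^ 2 + (p.2 : ℝ) ^ 2 ≤ x} : ℝ) - Real.pi * x) / x ^ (1 / 4 : ℝ))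
    (hDdef : ∀ x : ℝ, D x =
      ((∑ j ∈ Finset.Icc 1 ⌊x⌋₊, (j.divisors.card : ℝ)) - x * Real.log x
        - (2 * Real.eulerMascheroniConstant - 1) * x) / x ^ (1 / 4 : ℝ)) :
    ∃ (νP νD : ProbabilityMeasure ℝ) (GP GD : ℂ → ℂ),
      (Differentiable ℂ GP ∧ (∀ x : ℝ, 0 ≤ (GP x).re ∧ (GP x).im = 0) ∧
        (νP : Measure ℝ) = volume.withDensity (fun x : ℝ => ENNReal.ofReal (GP x).re) ∧
        (∀ u v : ℝ, u < v → 0 < (νP : Measure ℝ) (Set.Ioo u v))) ∧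
      (Differentiable ℂ GD ∧ (∀ x : ℝ, 0 ≤ (GD x).re ∧ (GD x).im = 0) ∧
        (νD : Measure ℝ) = volume.withDensity (fun x : ℝ => ENNReal.ofReal (GD x).re) ∧
        (∀ u v : ℝ, u < v → 0 < (νD : Measure ℝ) (Set.Ioo u v))) ∧
      ∀ (k l : ℕ) (a b : Fin k → ℕ) (c d : Fin l → ℕ), (∀ i, 0 < a i) → (∀ j, 0 < c j) →
      ∃ μ : ProbabilityMeasure (Fin k ⊕ Fin l → ℝ),
        Integrable (fun x : Fin k ⊕ Fin l → ℝ => ∑ i, x i ^ 2) (μ : Measure (Fin k ⊕ Fin l → ℝ)) ∧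
        (∀ i, (μ : Measure (Fin k ⊕ Fin l → ℝ)).map (fun x => x (Sum.inl i)) = (νP : Measure ℝ)) ∧
        (∀ j, (μ : Measure (Fin k ⊕ Fin l → ℝ)).map (fun x => x (Sum.inr j)) = (νD : Measure ℝ)) ∧
        (∀ i, ∫ x, x i ∂(μ : Measure (Fin k ⊕ Fin l → ℝ)) = 0) ∧
        (∀ i j, ∫ x, x (Sum.inl i) * x (Sum.inr j) ∂(μ : Measure (Fin k ⊕ Fin l → ℝ)) = 0) ∧
        (∀ f : (Fin k ⊕ Fin l → ℝ) → ℝ, Continuous f → (∃ C : ℝ, ∀ x, |f x| ≤ C * (1 + ∑ i, x i ^ 2)) →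
          ∀ η : ℝ, 0 < η → ∃ N₀ : ℕ, ∀ N : ℕ, N₀ ≤ N → ∀ α : ℝ,
            (∀ g : ℕ → ℂ, (∀ n, ‖g n‖ ≤ 1) → (∀ m n : ℕ, Nat.Coprime m n → g (m * n) = g m * g n) →
              ‖∑ n ∈ Finset.Icc 1 N, g n * Complex.exp (2 * Real.pi * Complex.I * (α * n)) *
                ((f (Sum.elim (fun i => P ((a i : ℝ) * n + b i)) (fun j => D ((c j : ℝ) * n + d j)))
                  - ∫ x, f x ∂(μ : Measure (Fin k ⊕ Fin l → ℝ)) : ℝ) : ℂ)‖ ≤ η * N) ∧
            ‖∑ p ∈ (Finset.Icc 1 N).filter Nat.Prime, Complex.exp (2 * Real.pi * Complex.I * (α * p)) *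
                ((f (Sum.elim (fun i => P ((a i : ℝ) * p + b i)) (fun j => D ((c j : ℝ) * p + d j)))
                  - ∫ x, f x ∂(μ : Measure (Fin k ⊕ Fin l → ℝ)) : ℝ) : ℂ)‖
              ≤ η * ((Finset.Icc 1 N).filter Nat.Prime).card) ∧
        (∀ A : Set (Fin k ⊕ Fin l → ℝ), (μ : Measure (Fin k ⊕ Fin l → ℝ)) (frontier A) = 0 →
          ∀ η : ℝ, 0 < η → ∃ N₀ : ℕ, ∀ N : ℕ, N₀ ≤ N → ∀ α : ℝ,
            (∀ g : ℕ → ℂ, (∀ n, ‖g n‖ ≤ 1) → (∀ m n : ℕ, Nat.Coprime m n → g (m * n) = g m * g n) →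
              ‖∑ n ∈ Finset.Icc 1 N, g n * Complex.exp (2 * Real.pi * Complex.I * (α * n)) *
                (((if (Sum.elim (fun i => P ((a i : ℝ) * n + b i)) (fun j => D ((c j : ℝ) * n + d j))) ∈ A
                  then (1 : ℝ) else 0) - (μ : Measure (Fin k ⊕ Fin l → ℝ)).real A : ℝ) : ℂ)‖ ≤ η * N) ∧
            ‖∑ p ∈ (Finset.Icc 1 N).filter Nat.Prime, Complex.exp (2 * Real.pi * Complex.I * (α * p)) *
                (((if (Sum.elim (fun i => P ((a i : ℝ) * p + b i)) (fun j => D ((c j : ℝ) * p + d j))) ∈ A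
                  then (1 : ℝ) else 0) - (μ : Measure (Fin k ⊕ Fin l → ℝ)).real A : ℝ) : ℂ)‖
              ≤ η * ((Finset.Icc 1 N).filter Nat.Prime).card) := by
  have hEc : P = Ec := funext hPdef
  have hEd : D = Edv := funext hDdef
  subst hEc hEd
  obtain ⟨t1, νP, GP, eb1, ht1, p1, p2, p3, p4, hAp1, hν1⟩ := base_circ
  obtain ⟨t2, νD, GD, eb2, ht2, d1, d2, d3, d4, hAp2, hν2⟩ := base_div
  refine ⟨νP, νD, GP, GD, ⟨p1, p2, p3, p4⟩, ⟨d1, d2, d3, d4⟩, ?_⟩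
  intro k l a b c d ha hc
  set ev' : ℕ → Fin k ⊕ Fin l → ℝ := fun n => Sum.elim (ev Pool.Agent.H383.Gauss.En 1 a b n) (ev E2 2 c d n) with hev'
  set U' : ℕ → ℕ → Fin k ⊕ Fin l → ℝ := fun M n => Sum.elim (Ux ag (3 * Real.pi / 4) 1 a M n)
    (Ux ad (Real.pi / 4) 2 c M n) with hU'
  have hU : ∀ M i, (fun n => ((U' M n i : ℝ) : ℂ)) ∈ TS := by
    intro M i
    rcases i with i | i
    · exact U_TS ag (3 * Real.pi / 4) (1 * √(a i:ℝ)) M
    · exact U_TS ad (Real.pi / 4) (2 * √(c i:ℝ)) M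
  have hI : ApU U' ev' SI := ApU_elim (ApU_SI ag_Bdw ag_zero wg_Wt En_SandW one_pos a b (fun i => ha i))
    (ApU_SI ad_Bdw2 ad_zero wd_Wt (E2_SandW vor) two_pos c d (fun i => hc i))
  have hQ : ApU U' ev' SQ := ApU_elim (ApU_SQ ag_Bdw ag_zero wg_Wt En_SandW one_pos a b (fun i => ha i))
    (ApU_SQ ad_Bdw2 ad_zero wd_Wt (E2_SandW vor) two_pos c d (fun i => hc i))
  obtain ⟨μ, hμ1, hμ2⟩ := SL.law hU SI_ne SI_Av hI
  have hQ2 : ∀ f : (Fin k ⊕ Fin l → ℝ) → ℝ, Continuous f → (∃ C, ∀ x, |f x| ≤ C * (1 + q x)) →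
      Tendsto (fun j => fav (SQ j) (fun n => f (ev' n))) atTop
        (𝓝 (∫ x, f x ∂(μ : Measure (Fin k ⊕ Fin l → ℝ)))) :=
    fun f hf hC => SL.law_transfer hU SI_ne SI_Av hI SQ_ne SQ_Av hQ hf hC (hμ2 f hf hC)
  have huI : ∀ f : (Fin k ⊕ Fin l → ℝ) → ℝ, Continuous f → (∃ C, ∀ x, |f x| ≤ C * (1 + q x)) →
      ∀ η : ℝ, 0 < η → ∃ j0 : ℕ, ∀ j, j0 ≤ j → ∀ v ∈ VI j, ‖cav (SI j) (fun n => v n *
        ((f (ev' n) - ∫ x, f x ∂(μ : Measure (Fin k ⊕ Fin l → ℝ)) : ℝ) : ℂ))‖ ≤ η :=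
    fun f hf hC η hη => uo SI_ne SI_Av (V := VI) VI_bd VI_or hU hI hf hC (hμ2 f hf hC) hη
  have huQ : ∀ f : (Fin k ⊕ Fin l → ℝ) → ℝ, Continuous f → (∃ C, ∀ x, |f x| ≤ C * (1 + q x)) →
      ∀ η : ℝ, 0 < η → ∃ j0 : ℕ, ∀ j, j0 ≤ j → ∀ v ∈ VQ j, ‖cav (SQ j) (fun n => v n *
        ((f (ev' n) - ∫ x, f x ∂(μ : Measure (Fin k ⊕ Fin l → ℝ)) : ℝ) : ℂ))‖ ≤ η :=
    fun f hf hC η hη => uo SQ_ne SQ_Av (V := VQ) VQ_bd VQ_or hU hQ hf hC (hQ2 f hf hC) hη
  have hgr : ∀ i, ∃ C : ℝ, ∀ x : Fin k ⊕ Fin l → ℝ, |x i| ≤ C * (1 + q x) := fun i => ⟨1, fun x => by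
    have h5 : (x i)^2 ≤ q x := Finset.single_le_sum (f := fun i => (x i)^2) (fun i _ => sq_nonneg _) (mem_univ i)
    have := sq_nonneg (|x i| - 1)
    rw [← sq_abs (x i)] at h5
    nlinarith [abs_nonneg (x i)]⟩
  have hgr2 : ∀ i, ∃ C : ℝ, ∀ x : Fin k ⊕ Fin l → ℝ, |(x i)^2| ≤ C * (1 + q x) := fun i => ⟨1, fun x => by
    have h5 : (x i)^2 ≤ q x := Finset.single_le_sum (f := fun i => (x i)^2) (fun i _ => sq_nonneg _) (mem_univ i)
    rw [abs_of_nonneg (sq_nonneg _)]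
    linarith⟩
  have hgr3 : ∀ i j, ∃ C : ℝ, ∀ x : Fin k ⊕ Fin l → ℝ, |x i * x j| ≤ C * (1 + q x) := fun i j => ⟨1, fun x => by
    have h5 : (x i)^2 ≤ q x := Finset.single_le_sum (f := fun i => (x i)^2) (fun i _ => sq_nonneg _) (mem_univ i)
    have h6 : (x j)^2 ≤ q x := Finset.single_le_sum (f := fun i => (x i)^2) (fun i _ => sq_nonneg _) (mem_univ j)
    have := sq_nonneg (|x i| - |x j|)
    rw [abs_mul]
    rw [← sq_abs (x i)] at h5
    rw [← sq_abs (x j)] at h6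
    nlinarith [abs_nonneg (x i), abs_nonneg (x j)]⟩
  have hpos1 : ∀ i, (0:ℝ) < a i := fun i => by exact_mod_cast ha i
  have hpos2 : ∀ i, (0:ℝ) < c i := fun i => by exact_mod_cast hc i
  have hev : ∀ n : ℕ, ev' n = Sum.elim (fun i => Ec ((a i : ℝ) * n + b i)) (fun j => Edv ((c j : ℝ) * n + d j)) := by
    intro n
    funext z
    rcases z with i | i
    · simp only [hev', Sum.elim_inl]
      unfold ev
      rw [one_mul, Ec_eq (Nat.cast_nonneg _)]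
      congr 1; push_cast; ring
    · simp only [hev', Sum.elim_inr]
      unfold ev E2
      rw [← Edv_eq (by positivity)]
      congr 1
      rw [mul_comm, mul_div_assoc]
      norm_num
  have he : ∀ (α : ℝ) (n : ℕ), e (α * n) = Complex.exp (2 * Real.pi * Complex.I * (α * n)) := by
    intro α n
    unfold e
    congr 1; push_cast; ring
  refine ⟨μ, hμ1, ?_, ?_, ?_, ?_, ?_, ?_⟩
  · intro i
    refine SW.marg_eq (af := ag) (φ := 3 * Real.pi / 4) (eb := eb1) (κ₁ := 1 * √(a i:ℝ))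
      (by have := Real.sqrt_pos.mpr (hpos1 i); positivity) ht1 (Sum.inl i)
      (fun η hη => ApU_comp1 hI (Sum.inl i) hη) ?_ hμ2 hν1
    intro η hη
    obtain ⟨M0, h3⟩ := hAp1 η hη
    refine ⟨M0, fun M hM => ?_⟩
    obtain ⟨N0, h4⟩ := h3 M hM
    refine ⟨N0, fun j hj => ?_⟩
    rw [RS_fav]
    exact h4 (j+1) (by omega)
  · intro i
    refine SW.marg_eq (af := ad) (φ := Real.pi / 4) (eb := eb2) (κ₁ := 2 * √(c i:ℝ))
      (by have := Real.sqrt_pos.mpr (hpos2 i); positivity) ht2 (Sum.inr i)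
      (fun η hη => ApU_comp1 hI (Sum.inr i) hη) ?_ hμ2 hν2
    intro η hη
    obtain ⟨M0, h3⟩ := hAp2 η hη
    refine ⟨M0, fun M hM => ?_⟩
    obtain ⟨N0, h4⟩ := h3 M hM
    refine ⟨N0, fun j hj => ?_⟩
    rw [RS_fav]
    exact h4 (j+1) (by omega)
  · intro i
    have hX := hμ2 (fun x => x i) (continuous_apply i) (hgr i)
    have hX2 := hμ2 (fun x => (x i)^2) ((continuous_apply i).pow 2) (hgr2 i)
    have hone : Tendsto (fun j => fav (SI j) (fun _ => (1:ℝ)^2)) atTop (𝓝 1) := by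
      simp only [one_pow, fun j => fav_const (SI_ne j) 1]; exact tendsto_const_nhds
    have hL : Tendsto (fun j => fav (SI j) (fun n => ev' n i * (1:ℝ))) atTop
        (𝓝 (∫ x, x i ∂(μ : Measure (Fin k ⊕ Fin l → ℝ)))) := by
      simp only [mul_one]; exact hX
    have hG : ∀ M : ℕ, Tendsto (fun j => fav (SI j) (fun n => U' M n i * (1:ℝ))) atTop (𝓝 0) := by
      intro M
      simp only [mul_one]
      rcases i with i | i
      · exact U_mean0 ag (3 * Real.pi / 4) (κ := 1 * √(a i:ℝ))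
          (by have := Real.sqrt_pos.mpr (hpos1 i); positivity) M
      · exact U_mean0 ad (Real.pi / 4) (κ := 2 * √(c i:ℝ))
          (by have := Real.sqrt_pos.mpr (hpos2 i); positivity) M
    have := prod_lim (S := SI) (x := fun n => ev' n i) (y := fun _ => 1) (u := fun M n => U' M n i)
      (v := fun _ _ => 1)
      (fun η hη => ApU_comp1 hI i hη) (fun η hη => ⟨0, fun M _ => ⟨0, fun j _ => by
        simp only [sub_self]
        rw [fav_const (SI_ne j)]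
        norm_num; exact hη.le⟩⟩) hX2 hone hL (G := fun _ => 0) hG
    exact tendsto_nhds_unique this tendsto_const_nhds
  · intro i j
    have hX := hμ2 (fun x => (x (Sum.inl i))^2) ((continuous_apply _).pow 2) (hgr2 _)
    have hY := hμ2 (fun x => (x (Sum.inr j))^2) ((continuous_apply _).pow 2) (hgr2 _)
    have hL := hμ2 (fun x => x (Sum.inl i) * x (Sum.inr j)) ((continuous_apply _).mul (continuous_apply _))
      (hgr3 _ _)
    have hcos : Real.cos (3 * Real.pi / 4 - Real.pi / 4) = 0 := by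
      rw [show 3 * Real.pi / 4 - Real.pi / 4 = Real.pi / 2 by ring, Real.cos_pi_div_two]
    have hlim := prod_lim (S := SI) (x := fun n => ev' n (Sum.inl i)) (y := fun n => ev' n (Sum.inr j))
      (u := fun M n => U' M n (Sum.inl i)) (v := fun M n => U' M n (Sum.inr j))
      (fun η hη => ApU_comp1 hI _ hη) (fun η hη => ApU_comp1 hI _ hη) hX hY hL
      (G := fun _ => 0) (fun M => U_cross ag ad (3 * Real.pi / 4) (Real.pi / 4) hcos one_pos two_pos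
        (ha i) (hc j) M)
    exact tendsto_nhds_unique hlim tendsto_const_nhds
  · intro f hf hC η hη
    obtain ⟨N1, k1⟩ := unI (X := fun n => ((f (ev' n) - ∫ x, f x ∂(μ : Measure (Fin k ⊕ Fin l → ℝ)) : ℝ) : ℂ))
      (huI f hf hC η hη)
    obtain ⟨N2, k2⟩ := unQ (X := fun n => ((f (ev' n) - ∫ x, f x ∂(μ : Measure (Fin k ⊕ Fin l → ℝ)) : ℝ) : ℂ))
      (huQ f hf hC η hη)
    refine ⟨max N1 N2, fun N hN α => ?_⟩
    have h1 := k1 N (by omega) α
    have h2 := k2 N (by omega) α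
    simp only [hev, he] at h1 h2
    exact ⟨fun g hg1 hg2 => h1 g ⟨hg1, hg2⟩, h2⟩
  · intro A hA η hη
    obtain ⟨N1, k1⟩ := unI (X := fun n => (((if ev' n ∈ A then (1:ℝ) else 0) -
      (μ : Measure (Fin k ⊕ Fin l → ℝ)).real A : ℝ) : ℂ)) (SV.uoA SI_ne VI_bd hμ2 huI hA hη)
    obtain ⟨N2, k2⟩ := unQ (X := fun n => (((if ev' n ∈ A then (1:ℝ) else 0) -
      (μ : Measure (Fin k ⊕ Fin l → ℝ)).real A : ℝ) : ℂ)) (SV.uoA SQ_ne VQ_bd hQ2 huQ hA hη)
    refine ⟨max N1 N2, fun N hN α => ?_⟩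
    have h1 := k1 N (by omega) α
    have h2 := k2 N (by omega) α
    simp only [hev, he] at h1 h2
    exact ⟨fun g hg1 hg2 => h1 g ⟨hg1, hg2⟩, h2⟩

end Pool.Agent.Results.MP_fb29e9_nt.JointWithDivisor
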