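import Pool.Agent.W24.CP.Two

/-!
# Power savings for the error term of the circle problem against primes, the Möbius function and all
additive characters
-/

set_option autoImplicit false

namespace Pool.Agent.Results.MP_fb29e9_nt.PowerSaving

/-- Let `P(n) = #{p ∈ ℤ² : |p|² ≤ n} - π n` be the error term of the Gauss circle problem, whose size in mean
square is `n^{1/4}`. There are `δ > 0` and `C` such that for all real `α` and all `N ≥ 1`
`|∑_{n ≤ N} μ(n) e^{2πiαn} P(n)| ≤ C N^{5/4-δ}` and `|∑_{n ≤ N} Λ(n) e^{2πiαn} P(n)| ≤ C N^{5/4-δ}`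
(`μ` the Möbius function, `Λ` the von Mangoldt function). -/
theorem result : ∃ δ : ℝ, 0 < δ ∧ ∃ C : ℝ, ∀ (α : ℝ) (N : ℕ), 1 ≤ N →
      ‖∑ n ∈ Finset.Icc 1 N, ((ArithmeticFunction.moebius n : ℤ) : ℂ) *
          Complex.exp (2 * Real.pi * Complex.I * (α * n)) *
        (((Nat.card {p : ℤ × ℤ // p.1 ^ 2 + p.2 ^ 2 ≤ (n : ℤ)} : ℝ) - Real.pi * n : ℝ) : ℂ)‖
        ≤ C * (N:ℝ) ^ (5/4 - δ) ∧
      ‖∑ n ∈ Finset.Icc 1 N, ((ArithmeticFunction.vonMangoldt n : ℝ) : ℂ) *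
          Complex.exp (2 * Real.pi * Complex.I * (α * n)) *
        (((Nat.card {p : ℤ × ℤ // p.1 ^ 2 + p.2 ^ 2 ≤ (n : ℤ)} : ℝ) - Real.pi * n : ℝ) : ℂ)‖
        ≤ C * (N:ℝ) ^ (5/4 - δ) :=
  Pool.Agent.W24.CP.circ_save

end Pool.Agent.Results.MP_fb29e9_nt.PowerSaving
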